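import Pool.Agent.H136R3.Bishop

set_option autoImplicit false

/-!
# Points without bounded point derivations in every norm ball

A refinement of `Pool.Agent.H136R3.exists_unbounded`: the radius is arbitrary, and countably many
points may be excluded near nonpeak points.
-/

open MeasureTheory Filter Topology Set Metric Polynomial

namespace Pool.Agent.Y801.SC

open Pool.Agent.H136R3

/-- closeness of the evaluations bounds the distance -/
theorem dist_le_of_cl {X : Set ℂ} {x y : ℂ} {δ D : ℝ} (h : Cl X δ x y)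
    (hD : ∀ z ∈ X, ‖z - x‖ ≤ D) : dist x y ≤ δ * D := by
  have h1 := h (fun z => z - x) (QX.id_sub_mem X x) D hD
  simp only [sub_self, zero_sub, norm_neg] at h1
  rw [dist_comm, dist_eq_norm]
  exact h1

theorem exists_diam {X : Set ℂ} (hX : IsCompact X) : ∃ D : ℝ, 0 < D ∧
    ∀ x ∈ X, ∀ z ∈ X, ‖z - x‖ ≤ D := by
  obtain ⟨D, hD⟩ := hX.isBounded.exists_norm_le
  refine ⟨2 * |D| + 1, by positivity, fun x hx z hz => ?_⟩
  have h1 := hD x hx
  have h2 := hD z hz
  have h3 := le_abs_self D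
  have h4 := norm_sub_le z x
  linarith

/-- **Main lemma.** Let `X` be compact with empty interior, `x₀` in `X`, `ε > 0`, and let `S` be a
countable set which is empty unless no point with evaluation near the one of `x₀` is isolated. Then
some point off `S` whose evaluation has distance at most `ε` from the one at `x₀` has no bound
for the derivative. -/
theorem exists_unbounded_gen {X : Set ℂ} (hX : IsCompact X) (hint : interior X = ∅) {x₀ : ℂ}
    (hx₀ : x₀ ∈ X) {ε : ℝ} (hε : 0 < ε) {S : Set ℂ} (hS : S.Countable)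
    (hperf : ∀ s ∈ S, ∀ y ∈ X, (∃ δ : ℝ, δ < ε ∧ Cl X δ x₀ y) → ∀ η : ℝ, 0 < η →
      ∃ w ∈ X, w ≠ y ∧ Cl X η y w) :
    ∃ y ∈ X, y ∉ S ∧ Cl X ε x₀ y ∧ ∀ K : ℝ, ¬ N2 X K y := by
  by_contra hcon
  push Not at hcon
  have hall : ∀ y ∈ X, y ∉ S → Cl X ε x₀ y → ∃ K : ℝ, N2 X K y :=
    fun y hy hyS hc => hcon y hy hyS hc
  obtain ⟨D, hD0, hD⟩ := exists_diam hX
  set G : Set ℂ := {y | y ∈ X ∧ ∃ δ : ℝ, δ < ε ∧ Cl X δ x₀ y} with hG
  set T : Set ℂ := closure G with hT
  have hGX : G ⊆ X := fun y hy => hy.1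
  have hTX : T ⊆ X := closure_minimal hGX hX.isClosed
  have hTc : IsCompact T := hX.of_isClosed_subset isClosed_closure hTX
  have hx₀G : x₀ ∈ G := by
    refine ⟨hx₀, 0, hε, fun f hf M hM => ?_⟩
    simp
  have hT2 : ∀ y ∈ T, Cl X ε x₀ y := by
    intro y hy f hf M hM
    have hM0 : 0 ≤ M := (norm_nonneg _).trans (hM x₀ hx₀)
    have hyX := hTX hy
    have hc : ContinuousAt (fun w => ‖f x₀ - f w‖) y :=
      (continuousAt_const.sub (QX.differentiableAt hf hyX).continuousAt).norm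
    rw [hT, mem_closure_iff_frequently] at hy
    by_contra hlt
    push Not at hlt
    have hev : ∀ᶠ w in 𝓝 y, ε * M < ‖f x₀ - f w‖ := hc.eventually (lt_mem_nhds hlt)
    obtain ⟨w, hw1, hw2⟩ := (hy.and_eventually hev).exists
    obtain ⟨hwX, δ, hδ, hcl⟩ := hw1
    have := hcl f hf M hM
    have h3 : δ * M ≤ ε * M := mul_le_mul_of_nonneg_right hδ.le hM0
    linarith
  -- the closed sets
  have : Countable S := hS.to_subtype
  let F : ℕ ⊕ S → Set T := fun i => Sum.elim (fun n : ℕ => {y : T | N2 X (n + 1) (y : ℂ)})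
    (fun s : S => {y : T | (y : ℂ) = s}) i
  have hFc : ∀ i, IsClosed (F i) := by
    rintro (n | s)
    · have h1 : F (Sum.inl n) = ⋂ (f : ℂ → ℂ) (_ : f ∈ QX X) (M : ℝ) (_ : ∀ z ∈ X, ‖f z‖ ≤ M),
          {y : T | ‖deriv f (y : ℂ)‖ ≤ (n + 1) * M} := by
        ext y
        simp only [F, N2, Sum.elim_inl, mem_ofPred_eq, mem_iInter]
      rw [h1]
      refine isClosed_iInter fun f => isClosed_iInter fun hf => isClosed_iInter fun M =>
        isClosed_iInter fun _ => isClosed_le ?_ continuous_const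
      exact ((QX.continuousOn_deriv hf).mono hTX).domRestrict.norm
    · exact isClosed_eq continuous_subtype_val continuous_const
  have hFU : ⋃ i, F i = univ := by
    rw [eq_univ_iff_forall]
    rintro ⟨y, hy⟩
    rw [mem_iUnion]
    by_cases hyS : y ∈ S
    · exact ⟨Sum.inr ⟨y, hyS⟩, rfl⟩
    · obtain ⟨K, hK⟩ := hall y (hTX hy) hyS (hT2 y hy)
      obtain ⟨n, hn⟩ := exists_nat_gt K
      refine ⟨Sum.inl n, fun f hf M hM => (hK f hf M hM).trans ?_⟩
      have hM0 : 0 ≤ M := (norm_nonneg _).trans (hM x₀ hx₀)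
      exact mul_le_mul_of_nonneg_right (by linarith) hM0
  have : CompactSpace T := isCompact_iff_compactSpace.1 hTc
  have : Nonempty T := ⟨⟨x₀, subset_closure hx₀G⟩⟩
  obtain ⟨i, ⟨y₀, hy₀⟩⟩ := nonempty_interior_of_iUnion_of_closed hFc hFU
  rw [mem_interior_iff_mem_nhds, Metric.mem_nhds_iff] at hy₀
  obtain ⟨ρ, hρ, hball⟩ := hy₀
  -- a point of `G` near `y₀`
  obtain ⟨x₁, hx₁G, hx₁d⟩ := Metric.mem_closure_iff.1 y₀.2 (ρ / 2) (by positivity)
  obtain ⟨hx₁X, δ₁, hδ₁, hcl₁⟩ := hx₁G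
  have hx₁T : x₁ ∈ T := subset_closure ⟨hx₁X, δ₁, hδ₁, hcl₁⟩
  rw [dist_comm] at hx₁d
  obtain ⟨n, rfl⟩ : ∃ n, i = Sum.inl n := by
    rcases i with n | s
    · exact ⟨n, rfl⟩
    · exfalso
      obtain ⟨w, hwX, hwx, hcl⟩ := hperf s s.2 x₁ hx₁X ⟨δ₁, hδ₁, hcl₁⟩
        (min ((ε - δ₁) / 2) (ρ / (4 * D))) (by
          have : 0 < ε - δ₁ := by linarith
          positivity)
      have hcl2 := (hcl₁.trans hcl).mono hx₀ (δ' := δ₁ + (ε - δ₁) / 2) (by
        have := min_le_left ((ε - δ₁) / 2) (ρ / (4 * D))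
        linarith)
      have hwT : w ∈ T := subset_closure ⟨hwX, _, by linarith, hcl2⟩
      have hd := dist_le_of_cl hcl (hD x₁ hx₁X)
      have hd2 : dist x₁ w ≤ ρ / 4 := by
        refine hd.trans ?_
        have h1 := min_le_right ((ε - δ₁) / 2) (ρ / (4 * D))
        have h2 := mul_le_mul_of_nonneg_right h1 hD0.le
        have h3 : ρ / (4 * D) * D = ρ / 4 := by field_simp
        linarith
      have e1 : (x₁ : ℂ) = s := hball (show (⟨x₁, hx₁T⟩ : T) ∈ ball y₀ ρ from by
        have : dist x₁ (y₀ : ℂ) < ρ := by linarith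
        exact this)
      have e2 : (w : ℂ) = s := hball (show (⟨w, hwT⟩ : T) ∈ ball y₀ ρ from by
        have h5 := dist_triangle w x₁ (y₀ : ℂ)
        rw [dist_comm w x₁] at h5
        have : dist w (y₀ : ℂ) < ρ := by linarith
        exact this)
      exact hwx (e2.trans e1.symm)
  set K : ℝ := (n : ℝ) + 1 with hKdef
  have hK0 : 0 < K := by positivity
  have hN2 : ∀ y ∈ T, dist y (y₀ : ℂ) < ρ → N2 X K y := by
    intro y hy hd
    exact hball (show (⟨y, hy⟩ : T) ∈ ball y₀ ρ from hd)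
  have hx₁N := hN2 x₁ hx₁T (by linarith)
  -- choice of a small scale
  obtain ⟨s, hs0, hs1, hs2, hs3⟩ : ∃ s : ℝ, 0 < s ∧ s < ρ / 8 ∧ 112 * K * s < 1 ∧
      δ₁ + 560 * K * s < ε := by
    have hpos : 0 < (ε - δ₁) := by linarith
    refine ⟨min (ρ / 16) (min (1 / (224 * K)) ((ε - δ₁) / (1120 * K))), ?_, ?_, ?_, ?_⟩
    · positivity
    · have := min_le_left (ρ / 16) (min (1 / (224 * K)) ((ε - δ₁) / (1120 * K)))
      linarith
    · have h1 : min (ρ / 16) (min (1 / (224 * K)) ((ε - δ₁) / (1120 * K))) ≤ 1 / (224 * K) :=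
        (min_le_right _ _).trans (min_le_left _ _)
      have h2 : 112 * K * (1 / (224 * K)) = 1 / 2 := by field_simp; norm_num
      have h3 := mul_le_mul_of_nonneg_left h1 (by positivity : 0 ≤ 112 * K)
      linarith
    · have h1 : min (ρ / 16) (min (1 / (224 * K)) ((ε - δ₁) / (1120 * K))) ≤
          (ε - δ₁) / (1120 * K) := (min_le_right _ _).trans (min_le_right _ _)
      have h2 : 560 * K * ((ε - δ₁) / (1120 * K)) = (ε - δ₁) / 2 := by
        field_simp; ring
      have h3 := mul_le_mul_of_nonneg_left h1 (by positivity : 0 ≤ 560 * K)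
      linarith
  -- a point off `X` near `x₁`
  obtain ⟨y', hy'X, hy'd⟩ : ∃ y', y' ∉ X ∧ dist y' x₁ < s := by
    by_contra hno
    push Not at hno
    have h1 : ball x₁ s ⊆ X := by
      intro w hw
      by_contra hwX
      exact absurd (hno w hwX) (not_le.2 hw)
    have h2 : x₁ ∈ interior X := mem_interior.2 ⟨_, h1, isOpen_ball, mem_ball_self hs0⟩
    rw [hint] at h2
    exact h2
  obtain ⟨z, hzT, hz⟩ := hTc.exists_infDist_eq_dist ⟨x₁, hx₁T⟩ y'
  have ht0 : 0 < dist y' z := by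
    rw [dist_pos]
    rintro rfl
    exact hy'X (hTX hzT)
  have hts : dist y' z < s := by
    rw [← hz]
    exact (infDist_le_dist_of_mem hx₁T).trans_lt hy'd
  have hzx₁ : dist z x₁ ≤ 2 * s := by
    have := dist_triangle z y' x₁
    rw [dist_comm z y'] at this
    linarith
  have hzN := hN2 z hzT (by
    have := dist_triangle z x₁ (y₀ : ℂ)
    linarith)
  -- closeness of `z` and `x₁`
  have h1 : Cl X (224 * K * (2 * s)) x₁ z := by
    refine exists_close_two hX hx₁X (hTX hzT) hx₁N hzN hK0 (y' := x₁) (by positivity) ?_ hzx₁ ?_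
    · rw [dist_self]; positivity
    · linarith
  -- a point `w` of `X` nearer to `y'` than `z`
  obtain ⟨w, hw1, hwX, hw2⟩ := exists_close_one hX (hTX hzT) hzN hK0 ht0 (y' := y')
    (by rw [dist_comm]) (by nlinarith)
  have h2 : Cl X (δ₁ + 560 * K * s) x₀ w := by
    have h3 := (hcl₁.trans h1).trans hw2.symm
    refine h3.mono hx₀ ?_
    have : 112 * K * dist y' z ≤ 112 * K * s := mul_le_mul_of_nonneg_left hts.le (by positivity)
    linarith
  have hwT : w ∈ T := subset_closure ⟨hwX, _, hs3, h2⟩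
  have h4 := infDist_le_dist_of_mem (x := y') hwT
  rw [hz, dist_comm y' w] at h4
  exact absurd hw1 (not_lt.2 h4)

/-- nonpeak points are not isolated for the distance of the evaluations -/
theorem not_isolated {X : Set ℂ} (hX : IsCompact X) {x : X} (hx : ¬ IsPeak X x) {η : ℝ}
    (hη : 0 < η) : ∃ w ∈ X, w ≠ x ∧ Cl X η x w := by
  obtain ⟨μ, hfin, h0, hμ⟩ := exists_measure0 hX hx
  obtain ⟨w, hwX, -, hwx, hcl⟩ := exists_close_of_measure hX (x := x) (μ := μ) hμ h0
    (q := min (η / 2) (1 / 2)) (by positivity) (by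
      have := min_le_right (η / 2) (1 / 2 : ℝ)
      linarith) (N := ∅) measure_empty
  refine ⟨w, hwX, hwx, hcl.mono x.2 ?_⟩
  have := min_le_left (η / 2) (1 / 2 : ℝ)
  linarith

/-- a bound of the derivative gives a functional that extends the derivative -/
theorem exists_ext {X : Set ℂ} (hX : IsCompact X) {K : ℝ} {y : ℂ} (hy : y ∈ X)
    (hK : N2 X K y) : ∃ Ψ : C(X, ℂ) → ℂ, Continuous Ψ ∧ (∀ f g, Ψ (f + g) = Ψ f + Ψ g) ∧
      (∀ (c : ℂ) f, Ψ (c • f) = c * Ψ f) ∧
      (∀ f (M : ℝ), (∀ z : X, ‖f z‖ ≤ M) → ‖Ψ f‖ ≤ K * M) ∧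
      ∀ f : QX X, Ψ (restr X f) = deriv f.1 y := by
  have : CompactSpace X := isCompact_iff_compactSpace.1 hX
  have hK0 : 0 ≤ K := by
    have := hK (fun _ => 1) (QX.const_mem X 1) 1 (fun z _ => by simp)
    have h2 := (norm_nonneg _).trans this
    linarith
  let l : (QX X) →ₗ[ℂ] ℂ :=
    { toFun := fun f => deriv f.1 y
      map_add' := fun f g => by
        change deriv (f.1 + g.1) y = _
        rw [deriv_add (QX.differentiableAt f.2 hy) (QX.differentiableAt g.2 hy)]
      map_smul' := fun c f => by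
        change deriv (c • f.1) y = c • deriv f.1 y
        rw [deriv_const_smul _ (QX.differentiableAt f.2 hy)] }
  obtain ⟨Ψ, hΨ, hΨ2⟩ := Pool.Agent.H731R2.exists_functional (restr X) l K hK0 (by
    intro f
    exact hK f.1 f.2 _ (fun z hz => ContinuousMap.norm_coe_le_norm (restr X f) ⟨z, hz⟩))
  refine ⟨Ψ, Ψ.continuous, fun f g => map_add Ψ f g, fun c f => by rw [map_smul, smul_eq_mul],
    fun f M hM => ?_, fun f => hΨ2 f⟩
  have hM0 : 0 ≤ M := (norm_nonneg _).trans (hM ⟨y, hy⟩)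
  have h1 : ‖f‖ ≤ M := (ContinuousMap.norm_le f hM0).2 hM
  exact (Ψ.le_opNorm f).trans (mul_le_mul hΨ h1 (norm_nonneg _) hK0)

end Pool.Agent.Y801.SC
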